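import Mathlib
import Pool.Agent.TH676.CK.Exist
import Pool.Agent.Q316.KC.Conv

/-!
MP_018646_lc, Q2: every measure on Cantor space with property (B2) has property (A2).  Hence the
implication (A2) ⇒ (B2) is not proper.

`U` is any optimal plain machine and `V` any optimal prefix-free machine, so that `cx U` is plain
complexity `C` and `cx V` is prefix-free complexity `K` (`Pool.Agent.TH676.CK.OptPlain`, `OptPFree`,
`cx`).  The natural number `n` is identified with the string `natStr n` (length-lexicographic
order), and `avg μ f n` is the sum over the strings `x` of length `n` of `μ[x] * f x`.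
-/

set_option autoImplicit false
open MeasureTheory

namespace Pool.Agent.Results.MP_018646_lc.NotProper

open Pool.Agent.TH676.CK (OptPlain OptPFree cx)
open Pool.Agent.Q316.KC (natStr avg)

/-- (A2): `K(μ↾n) ≥ n + K(n) - c` for all `n`. -/
def A2 (V : List Bool →. List Bool) (μ : Measure (ℕ → Bool)) : Prop :=
  ∃ c : ℝ, ∀ n : ℕ, (n : ℝ) + cx V (natStr n) - c ≤ avg μ (cx V) n

/-- (B2): `C(μ↾n) ≥ n - c` for all `n`. -/
def B2 (U : List Bool →. List Bool) (μ : Measure (ℕ → Bool)) : Prop :=
  ∃ c : ℝ, ∀ n : ℕ, (n : ℝ) - c ≤ avg μ (cx U) n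

/-- **Every measure satisfying (B2) satisfies (A2)** (for every choice of the optimal machines;
such machines exist). -/
theorem result : (∃ U : List Bool →. List Bool, OptPlain U) ∧
    (∃ V : List Bool →. List Bool, OptPFree V) ∧
    ∀ U V : List Bool →. List Bool, OptPlain U → OptPFree V →
      ∀ μ : Measure (ℕ → Bool), IsProbabilityMeasure μ → B2 U μ → A2 V μ := by
  refine ⟨Pool.Agent.TH676.CK.exists_optPlain, Pool.Agent.TH676.CK.exists_optPFree, ?_⟩
  intro U V hU hV μ hμ h
  exact Pool.Agent.Q316.KC.conv
    (Pool.Agent.TH676.CK.isKP_cx hV natStr Pool.Agent.Q316.KC.computable_natStr)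
    (Pool.Agent.TH676.CK.isPlain_cx hU natStr Pool.Agent.Q316.KC.computable_natStr) μ h

end Pool.Agent.Results.MP_018646_lc.NotProper
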